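import Mathlib
import Pool.Agent.H927R2.RD.Final2

/-!
# Dynamical Mordell-Lang for almost all endomorphisms of large degree of `P^2` and `P^3`

Definitions (all in `Pool.Agent.H927R2.RD`):
* `Box n d H`: the `n`-tuples of forms of degree `d` in `n` variables over `ℤ` with coefficients of
  absolute value at most `H`;
* `DMLAt F α`: for every set `S` of homogeneous complex polynomials the set of `k` such that all
  `g ∈ S` vanish at the `k`-th iterate of `α` is a finite union of arithmetic progressions;
* `DMLOver L F`: `DMLAt F α` for all `α ≠ 0` with coordinates in the subfield `L` of `ℂ`.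
-/

set_option autoImplicit false

open MvPolynomial Pool.Agent.H927R2.RD

namespace Pool.Agent.Results.MP_b15c9e_ag.AlmostAllMaps

/-- **Dynamical Mordell-Lang for almost all endomorphisms of `P^2` and `P^3`.**
Let `N = 2` or `3`, let `L ⊂ ℂ` be a finitely generated field and `ε > 0`. For `d ≥ d₀(L, ε)` and
`H ≥ H₀(d)` the proportion, among the systems of `N + 1` integral forms of degree `d` with
coefficients at most `H`, of those failing DML at some point over `L` and some closed `V ⊆ P^N` is
at most `ε`. -/
theorem result :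
    ∀ N : ℕ, N = 2 ∨ N = 3 → ∀ (s : Finset ℂ) (ε : ℝ), 0 < ε →
      ∃ d₀ : ℕ, ∀ d : ℕ, d₀ ≤ d → ∃ H₀ : ℕ, ∀ H : ℕ, H₀ ≤ H →
        (({F | F ∈ Box (N + 1) d H ∧ ¬ DMLOver (Subfield.closure (s : Set ℂ)) F} :
          Set (Fin (N + 1) → MvPolynomial (Fin (N + 1)) ℤ)).ncard : ℝ) ≤
            ε * ((Box (N + 1) d H).ncard : ℝ) := by
  rintro N (rfl | rfl) s ε hε
  · exact plane_all s ε hε
  · exact space_all s ε hε

end Pool.Agent.Results.MP_b15c9e_ag.AlmostAllMaps
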