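import Pool.Agent.H936R2.Model

/-!
Dynamical Mordell-Lang for endomorphisms of `ℙ^N` having good reduction without ramified periodic
points at some place, and for a full residue class of endomorphisms of every degree `d ≥ 2`.
-/

set_option autoImplicit false

namespace Pool.Agent.Results.MP_b15c9e_ag.EtaleReduction

open MvPolynomial Pool.Agent.H936R2

/-- A vector over `ℚ̄_p` whose maximal coordinate norm is `1`. -/
def Primitive {p : ℕ} [Fact p.Prime] {N : ℕ} (x : Fin (N + 1) → PadicAlgCl p) : Prop :=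
  (∀ i, ‖x i‖ ≤ 1) ∧ ∃ i, ‖x i‖ = 1

/-- The self-map of `ℚ̄_p^(N+1)` given by the forms `f` transported by `τ : ℂ → ℚ̄_p`. -/
noncomputable def mapAt {p : ℕ} [Fact p.Prime] {N : ℕ} (τ : ℂ →+* PadicAlgCl p)
    (f : Fin (N + 1) → MvPolynomial (Fin (N + 1)) ℂ) (x : Fin (N + 1) → PadicAlgCl p) :
    Fin (N + 1) → PadicAlgCl p := fun i => eval x (map τ (f i))

/-- The Jacobian determinant of the transported map. -/
noncomputable def jacDetAt {p : ℕ} [Fact p.Prime] {N : ℕ} (τ : ℂ →+* PadicAlgCl p)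
    (f : Fin (N + 1) → MvPolynomial (Fin (N + 1)) ℂ) (x : Fin (N + 1) → PadicAlgCl p) :
    PadicAlgCl p := (Matrix.of fun i j => eval x (pderiv j (map τ (f i)))).det

/-- `τ` is a place of good reduction: the coefficients are integral and the reduction has no
nontrivial common zero. -/
def GoodReduction {p : ℕ} [Fact p.Prime] {N : ℕ} (τ : ℂ →+* PadicAlgCl p)
    (f : Fin (N + 1) → MvPolynomial (Fin (N + 1)) ℂ) : Prop :=
  (∀ i κ, ‖τ ((f i).coeff κ)‖ ≤ 1) ∧ ∀ x, Primitive x → Primitive (mapAt τ f x)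

/-- The reduction has no ramified periodic point: the Jacobian determinant is a unit at every
primitive vector which is periodic modulo the maximal ideal. -/
def NoRamifiedPeriodic {p : ℕ} [Fact p.Prime] {N : ℕ} (τ : ℂ →+* PadicAlgCl p)
    (f : Fin (N + 1) → MvPolynomial (Fin (N + 1)) ℂ) : Prop :=
  ∀ x, Primitive x → ∀ m : ℕ, 0 < m → (∀ i, ‖(mapAt τ f)^[m] x i - x i‖ < 1) →
    ‖jacDetAt τ f x‖ = 1

/-- The Dynamical Mordell-Lang property of the endomorphism of `ℙ^N` given by the forms `f`. -/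
def HasDML {N : ℕ} (f : Fin (N + 1) → MvPolynomial (Fin (N + 1)) ℂ) : Prop :=
  ∀ S : Set (MvPolynomial (Fin (N + 1)) ℂ), (∀ g ∈ S, ∃ e : ℕ, g.IsHomogeneous e) →
    ∀ α : Fin (N + 1) → ℂ, α ≠ 0 → ∃ T : Finset (ℕ × ℕ),
      {n : ℕ | ∀ g ∈ S,
          eval ((fun x : Fin (N + 1) → ℂ => fun i => eval x (f i))^[n] α) g = 0}
        = {n : ℕ | ∃ q ∈ T, ∃ m : ℕ, n = q.1 * m + q.2}

section

variable {p : ℕ} [hp : Fact p.Prime] {N : ℕ}

/-- The integral model. -/
lemma exists_model (τ : ℂ →+* PadicAlgCl p) (f : Fin (N + 1) → MvPolynomial (Fin (N + 1)) ℂ)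
    (hint : ∀ i κ, ‖τ ((f i).coeff κ)‖ ≤ 1) :
    ∃ F : Fin (N + 1) → MvPolynomial (Fin (N + 1)) (unitBall (PadicAlgCl p)),
      (∀ i, map τ (f i) = map (unitBall (PadicAlgCl p)).subtype (F i)) ∧
      ∀ i κ, (((F i).coeff κ : unitBall (PadicAlgCl p)) : PadicAlgCl p) = τ ((f i).coeff κ) := by
  have hF : ∀ i, map τ (f i) = map (unitBall (PadicAlgCl p)).subtype
      (∑ κ ∈ (f i).support, monomial κ ⟨τ ((f i).coeff κ), hint i κ⟩) := by
    intro i
    conv_lhs => rw [(f i).as_sum]
    simp only [map_sum, map_monomial]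
    rfl
  refine ⟨fun i => ∑ κ ∈ (f i).support, monomial κ ⟨τ ((f i).coeff κ), hint i κ⟩, hF, ?_⟩
  intro i κ
  have h1 := congrArg (coeff κ) (hF i)
  rw [coeff_map, coeff_map] at h1
  exact h1.symm

lemma mapAt_coe (τ : ℂ →+* PadicAlgCl p) (f : Fin (N + 1) → MvPolynomial (Fin (N + 1)) ℂ)
    (F : Fin (N + 1) → MvPolynomial (Fin (N + 1)) (unitBall (PadicAlgCl p)))
    (hF : ∀ i, map τ (f i) = map (unitBall (PadicAlgCl p)).subtype (F i))
    (x : Fin (N + 1) → unitBall (PadicAlgCl p)) (n : ℕ) :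
    (mapAt τ f)^[n] (fun i => (x i : PadicAlgCl p)) =
      fun i => (((pt F)^[n] x i : unitBall (PadicAlgCl p)) : PadicAlgCl p) := by
  have h1 := pt_map (unitBall (PadicAlgCl p)).subtype F x n
  have h2 : (pt fun i => map (unitBall (PadicAlgCl p)).subtype (F i)) = mapAt τ f := by
    funext y i
    simp only [pt, mapAt, hF i]
  rw [h2] at h1
  exact h1

lemma jacDetAt_coe (τ : ℂ →+* PadicAlgCl p) (f : Fin (N + 1) → MvPolynomial (Fin (N + 1)) ℂ)
    (F : Fin (N + 1) → MvPolynomial (Fin (N + 1)) (unitBall (PadicAlgCl p)))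
    (hF : ∀ i, map τ (f i) = map (unitBall (PadicAlgCl p)).subtype (F i))
    (x : Fin (N + 1) → unitBall (PadicAlgCl p)) :
    jacDetAt τ f (fun i => (x i : PadicAlgCl p)) = (((jac F x).det : unitBall (PadicAlgCl p)) : PadicAlgCl p) := by
  have h1 := jac_map (unitBall (PadicAlgCl p)).subtype F x
  have h2 : (Matrix.of fun i j => eval (fun i => (x i : PadicAlgCl p)) (pderiv j (map τ (f i)))) =
      jac (fun i => map (unitBall (PadicAlgCl p)).subtype (F i)) (fun i => (unitBall (PadicAlgCl p)).subtype (x i)) := by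
    ext i j
    simp only [Matrix.of_apply, jac, hF i]
    rfl
  rw [jacDetAt, h2, h1, ← RingHom.map_det]
  rfl

lemma res_ne_zero_of_primitive (x : Fin (N + 1) → unitBall (PadicAlgCl p)) :
    Primitive (fun i => (x i : PadicAlgCl p)) ↔ (fun i => res (PadicAlgCl p) (x i)) ≠ 0 := by
  constructor
  · rintro ⟨-, i, hi⟩ h0
    have := congrFun h0 i
    simp only [Pi.zero_apply] at this
    rw [res_eq_zero_iff, hi] at this
    exact lt_irrefl _ this
  · intro h
    refine ⟨fun i => unitBall_norm_le _, ?_⟩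
    by_contra hne
    push Not at hne
    apply h
    funext i
    simp only [Pi.zero_apply]
    rw [res_eq_zero_iff]
    exact lt_of_le_of_ne (unitBall_norm_le _) (hne i)

/-- Good reduction without ramified periodic points implies Dynamical Mordell-Lang. -/
theorem dml_of_place (d : ℕ) (f : Fin (N + 1) → MvPolynomial (Fin (N + 1)) ℂ)
    (hf : ∀ i, (f i).IsHomogeneous d) (τ : ℂ →+* PadicAlgCl p)
    (hgood : GoodReduction τ f) (hram : NoRamifiedPeriodic τ f) :
    (∀ x : Fin (N + 1) → ℂ, (∀ i, eval x (f i) = 0) → x = 0) ∧ HasDML f := by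
  obtain ⟨hint, hprim⟩ := hgood
  obtain ⟨F, hF, hcoef⟩ := exists_model τ f hint
  apply criterion p N d f hf τ F hF
  · intro x hx
    by_contra hne
    obtain ⟨y, hy⟩ : ∃ y : Fin (N + 1) → unitBall (PadicAlgCl p),
        (fun i => res (PadicAlgCl p) (y i)) = x := by
      choose y hy using fun i => Ideal.Quotient.mk_surjective (x i)
      exact ⟨y, funext hy⟩
    have h1 : Primitive (fun i => (y i : PadicAlgCl p)) := by
      rw [res_ne_zero_of_primitive, hy]
      exact hne
    obtain ⟨-, i, hi⟩ := hprim _ h1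
    have h2 := congrFun (mapAt_coe τ f F hF y 1) i
    simp only [Function.iterate_one] at h2
    rw [h2] at hi
    have h3 := congrFun (pt_map (res (PadicAlgCl p)) F y 1) i
    simp only [Function.iterate_one] at h3
    rw [hy] at h3
    have h4 : res (PadicAlgCl p) (pt F y i) = 0 := by
      rw [← h3]
      exact hx i
    rw [res_eq_zero_iff, hi] at h4
    exact lt_irrefl _ h4
  · intro x hx m hm hper
    obtain ⟨y, hy⟩ : ∃ y : Fin (N + 1) → unitBall (PadicAlgCl p),
        (fun i => res (PadicAlgCl p) (y i)) = x := by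
      choose y hy using fun i => Ideal.Quotient.mk_surjective (x i)
      exact ⟨y, funext hy⟩
    have h1 : Primitive (fun i => (y i : PadicAlgCl p)) := by
      rw [res_ne_zero_of_primitive, hy]
      exact hx
    have h2 := hram _ h1 m hm (by
      intro i
      have h3 := congrFun (mapAt_coe τ f F hF y m) i
      rw [h3]
      have h4 := congrFun (pt_map (res (PadicAlgCl p)) F y m) i
      rw [hy, hper, ← hy] at h4
      have h5 : res (PadicAlgCl p) ((pt F)^[m] y i - y i) = 0 := by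
        rw [map_sub, ← h4, sub_self]
      rw [res_eq_zero_iff] at h5
      exact h5)
    rw [jacDetAt_coe τ f F hF] at h2
    rw [← hy, jac_map]
    have h6 : res (PadicAlgCl p) (jac F y).det ≠ 0 := by
      rw [Ne, res_eq_zero_iff, h2]
      exact lt_irrefl _
    rw [RingHom.map_det] at h6
    exact h6

/-- The residue class of the model map. -/
theorem model_place (d : ℕ) (a : ℤ) (hd : 2 ≤ d) (hpd : ¬ p ∣ d) (hpa : ¬ (p : ℤ) ∣ a)
    (h1a : (p : ℤ) ∣ (1 - a) ^ d - 1) (f : Fin (N + 1) → MvPolynomial (Fin (N + 1)) ℂ)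
    (τ : ℂ →+* PadicAlgCl p) (hτ : ∀ i κ,
      ‖τ ((f i).coeff κ) - (((modelForm N d a i).coeff κ : ℤ) : PadicAlgCl p)‖ < 1) :
    GoodReduction τ f ∧ NoRamifiedPeriodic τ f := by
  have hint : ∀ i κ, ‖τ ((f i).coeff κ)‖ ≤ 1 := by
    intro i κ
    have h1 : τ ((f i).coeff κ) = (τ ((f i).coeff κ) -
        (((modelForm N d a i).coeff κ : ℤ) : PadicAlgCl p)) +
        (((modelForm N d a i).coeff κ : ℤ) : PadicAlgCl p) := by ring
    rw [h1]
    exact (IsUltrametricDist.norm_add_le_max _ _).trans (max_le (hτ i κ).le (norm_intCast_le _))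
  obtain ⟨F, hF, hcoef⟩ := exists_model τ f hint
  have hred : (fun i => map (res (PadicAlgCl p)) (F i)) =
      modelK (ResF (PadicAlgCl p)) N d a := by
    funext i
    apply MvPolynomial.ext
    intro κ
    rw [coeff_map, modelK, coeff_map, ← sub_eq_zero]
    have h1 : (Int.castRingHom (ResF (PadicAlgCl p))) ((modelForm N d a i).coeff κ) =
        res (PadicAlgCl p) (((modelForm N d a i).coeff κ : ℤ) : unitBall (PadicAlgCl p)) := by
      simp
    rw [h1, ← map_sub, res_eq_zero_iff]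
    push_cast
    rw [hcoef]
    exact hτ i κ
  have hpres : ((p : ℕ) : ResF (PadicAlgCl p)) = 0 := by
    have h1 : ((p : ℕ) : ResF (PadicAlgCl p)) =
        res (PadicAlgCl p) ((p : ℕ) : unitBall (PadicAlgCl p)) := by simp
    rw [h1, res_eq_zero_iff]
    push_cast
    exact norm_p_lt_one p
  have : CharP (ResF (PadicAlgCl p)) p := (CharP.charP_iff_prime_eq_zero hp.out).2 hpres
  have hdk : ((d : ℕ) : ResF (PadicAlgCl p)) ≠ 0 := by
    intro h
    exact hpd ((CharP.cast_eq_zero_iff (ResF (PadicAlgCl p)) p d).1 h)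
  have hak : ((a : ℤ) : ResF (PadicAlgCl p)) ≠ 0 := by
    intro h
    exact hpa ((CharP.intCast_eq_zero_iff (ResF (PadicAlgCl p)) p a).1 h)
  have h1ak : (1 - ((a : ℤ) : ResF (PadicAlgCl p))) ^ d = 1 := by
    have h := (CharP.intCast_eq_zero_iff (ResF (PadicAlgCl p)) p ((1 - a) ^ d - 1)).2 h1a
    push_cast at h
    linear_combination h
  have hlift : ∀ x : Fin (N + 1) → PadicAlgCl p, Primitive x →
      ∃ y : Fin (N + 1) → unitBall (PadicAlgCl p), (fun i => (y i : PadicAlgCl p)) = x :=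
    fun x hx => ⟨fun i => ⟨x i, hx.1 i⟩, rfl⟩
  refine ⟨⟨hint, ?_⟩, ?_⟩
  · intro x hx
    obtain ⟨y, rfl⟩ := hlift x hx
    have h2 := mapAt_coe τ f F hF y 1
    simp only [Function.iterate_one] at h2
    rw [h2, res_ne_zero_of_primitive]
    rw [res_ne_zero_of_primitive] at hx
    intro h0
    apply hx
    apply model_nonzero (N := N) (d := d) hak (by omega)
    intro i
    have h3 := congrFun (pt_map (res (PadicAlgCl p)) F y 1) i
    simp only [Function.iterate_one] at h3
    rw [hred] at h3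
    simp only [pt] at h3
    rw [h3]
    exact congrFun h0 i
  · intro x hx m hm hper
    obtain ⟨y, rfl⟩ := hlift x hx
    rw [jacDetAt_coe τ f F hF]
    rw [← unitBall_isUnit_iff]
    apply isUnit_of_res_ne_zero
    rw [RingHom.map_det]
    have h1 := jac_map (res (PadicAlgCl p)) F y
    rw [hred] at h1
    rw [res_ne_zero_of_primitive] at hx
    have h2 := model_unramified hd hdk hak h1ak _ hx m hm (by
      have h3 := pt_map (res (PadicAlgCl p)) F y m
      rw [hred] at h3
      rw [h3]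
      funext i
      rw [← sub_eq_zero, ← map_sub, res_eq_zero_iff]
      have h4 := hper i
      rw [mapAt_coe τ f F hF] at h4
      exact h4)
    rw [h1] at h2
    exact h2

end

/-- For every degree there are admissible primes and integers. -/
lemma exists_admissible (d : ℕ) (hd : 2 ≤ d) : ∃ (p : ℕ) (a : ℤ), p.Prime ∧ ¬ p ∣ d ∧
    ¬ (p : ℤ) ∣ a ∧ (p : ℤ) ∣ (1 - a) ^ d - 1 := by
  obtain ⟨p, hp, hgt, hmod⟩ := Nat.exists_prime_gt_modEq_one d (by omega : d ≠ 0)
  have : Fact p.Prime := ⟨hp⟩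
  have hdvd : d ∣ p - 1 := (Nat.modEq_iff_dvd' hp.one_lt.le).1 hmod.symm
  -- a unit of order d
  obtain ⟨g, hg⟩ := IsCyclic.exists_generator (α := (ZMod p)ˣ)
  have hcard : orderOf g = p - 1 := by
    rw [orderOf_eq_card_of_forall_mem_zpowers hg, Nat.card_eq_fintype_card, ZMod.card_units]
  obtain ⟨m, hm⟩ := hdvd
  have hm0 : 0 < m := by
    rcases Nat.eq_zero_or_pos m with h | h
    · rw [h, Nat.mul_zero] at hm
      have := hp.two_le
      omega
    · exact h
  have hord : orderOf (g ^ m) = d := by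
    rw [orderOf_pow, hcard, hm, Nat.gcd_eq_right (Dvd.intro_left d rfl),
      Nat.mul_div_cancel _ hm0]
  have hne : g ^ m ≠ 1 := by
    intro h
    rw [h, orderOf_one] at hord
    omega
  have hpow : (g ^ m) ^ d = 1 := by
    rw [← hord]
    exact pow_orderOf_eq_one _
  obtain ⟨z, hz⟩ := ZMod.intCast_surjective (((g ^ m : (ZMod p)ˣ) : ZMod p))
  refine ⟨p, 1 - z, hp, ?_, ?_, ?_⟩
  · intro h
    have := Nat.le_of_dvd (by omega) h
    omega
  · intro h
    have h1 := (ZMod.intCast_zmod_eq_zero_iff_dvd (1 - z) p).2 h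
    push_cast at h1
    rw [hz] at h1
    apply hne
    apply Units.ext
    rw [Units.val_one]
    linear_combination -h1
  · apply (ZMod.intCast_zmod_eq_zero_iff_dvd _ p).1
    push_cast
    rw [hz]
    have : (1 : ZMod p) - (1 - ((g ^ m : (ZMod p)ˣ) : ZMod p)) = ((g ^ m : (ZMod p)ˣ) : ZMod p) := by
      ring
    rw [this, ← Units.val_pow_eq_pow_val, hpow]
    simp

/-- **Dynamical Mordell–Lang for endomorphisms of `ℙ^N` with étale periodic reduction.**
(1) If some embedding `τ : ℂ → ℚ̄_p` is a place of good reduction of `f` at which the reduction has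
no ramified periodic point, then `f` has the Dynamical Mordell–Lang property (for every closed
subvariety and every complex point).
(2) For every `N` and every degree `d ≥ 2` there are a prime `p` and an explicit tuple of integral
forms such that every tuple of integral forms of degree `d` congruent to it modulo `p` satisfies (1)
at every `τ`, and such `τ` exist. -/
theorem result :
    (∀ (N d p : ℕ) [Fact p.Prime] (f : Fin (N + 1) → MvPolynomial (Fin (N + 1)) ℂ),
      (∀ i, (f i).IsHomogeneous d) → ∀ τ : ℂ →+* PadicAlgCl p, GoodReduction τ f →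
      NoRamifiedPeriodic τ f →
      (∀ x : Fin (N + 1) → ℂ, (∀ i, eval x (f i) = 0) → x = 0) ∧ HasDML f) ∧
    (∀ d : ℕ, 2 ≤ d → ∃ (p : ℕ) (a : ℤ), p.Prime ∧ ¬ p ∣ d ∧ ¬ (p : ℤ) ∣ a ∧
      (p : ℤ) ∣ (1 - a) ^ d - 1) ∧
    ∀ (N d p : ℕ) [Fact p.Prime] (a : ℤ), 2 ≤ d → ¬ p ∣ d → ¬ (p : ℤ) ∣ a →
      (p : ℤ) ∣ (1 - a) ^ d - 1 → Nonempty (ℂ →+* PadicAlgCl p) ∧
      ∀ f : Fin (N + 1) → MvPolynomial (Fin (N + 1)) ℂ,
        (∀ H : Fin (N + 1) → MvPolynomial (Fin (N + 1)) ℤ,
          (∀ i, f i = map (Int.castRingHom ℂ) (modelForm N d a i + C (p : ℤ) * H i)) →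
          ∀ τ : ℂ →+* PadicAlgCl p, GoodReduction τ f ∧ NoRamifiedPeriodic τ f) ∧
        ∀ τ : ℂ →+* PadicAlgCl p, (∀ i κ,
            ‖τ ((f i).coeff κ) - (((modelForm N d a i).coeff κ : ℤ) : PadicAlgCl p)‖ < 1) →
          GoodReduction τ f ∧ NoRamifiedPeriodic τ f := by
  refine ⟨fun N d p hp f hf τ h1 h2 => dml_of_place d f hf τ h1 h2, exists_admissible, ?_⟩
  intro N d p hp a hd hpd hpa h1a
  refine ⟨exists_embedding p, fun f => ⟨?_, fun τ hτ => model_place d a hd hpd hpa h1a f τ hτ⟩⟩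
  intro H hH τ
  apply model_place d a hd hpd hpa h1a f τ
  intro i κ
  have h1 : τ ((f i).coeff κ) - (((modelForm N d a i).coeff κ : ℤ) : PadicAlgCl p) =
      (p : PadicAlgCl p) * (((H i).coeff κ : ℤ) : PadicAlgCl p) := by
    rw [hH i, coeff_map, coeff_add, coeff_C_mul]
    simp
  rw [h1, norm_mul]
  calc ‖(p : PadicAlgCl p)‖ * ‖(((H i).coeff κ : ℤ) : PadicAlgCl p)‖
      ≤ ‖(p : PadicAlgCl p)‖ * 1 :=
        mul_le_mul_of_nonneg_left (norm_intCast_le _) (norm_nonneg _)
    _ < 1 := by rw [mul_one]; exact norm_p_lt_one p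

end Pool.Agent.Results.MP_b15c9e_ag.EtaleReduction
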