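import Mathlib
import Pool.Agent.H927R2.RD.Final2

/-!
# Dynamical Mordell-Lang at a given point of `P^4` for almost all maps of large degree

Definitions (all in `Pool.Agent.H927R2.RD`):
* `Box n d H`: the `n`-tuples of forms of degree `d` in `n` variables over `ℤ` with coefficients of
  absolute value at most `H`;
* `DMLAt F α`: for every set `S` of homogeneous complex polynomials the set of `k` such that all
  `g ∈ S` vanish at the `k`-th iterate of `α` is a finite union of arithmetic progressions.
-/

set_option autoImplicit false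

open MvPolynomial Pool.Agent.H927R2.RD

namespace Pool.Agent.Results.MP_b15c9e_ag.FourSpacePoints

/-- **Dynamical Mordell-Lang at a given complex point of `P^4` for almost all maps.**
Let `α` be a complex point of `P^4` and `ε > 0`. For `d ≥ d₀(α, ε)` and `H ≥ H₀(d)` the proportion,
among the systems of five integral forms of degree `d` with coefficients at most `H`, of those
failing DML at `α` for some closed `V ⊆ P^4` is at most `ε`. -/
theorem result :
    ∀ α : Fin 5 → ℂ, α ≠ 0 → ∀ ε : ℝ, 0 < ε → ∃ d₀ : ℕ, ∀ d : ℕ, d₀ ≤ d →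
      ∃ H₀ : ℕ, ∀ H : ℕ, H₀ ≤ H →
        (({F | F ∈ Box 5 d H ∧ ¬ DMLAt (N := 4) F α} :
          Set (Fin 5 → MvPolynomial (Fin 5) ℤ)).ncard : ℝ) ≤ ε * ((Box 5 d H).ncard : ℝ) :=
  fun α hα ε hε => point_all α hα ε hε

end Pool.Agent.Results.MP_b15c9e_ag.FourSpacePoints
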