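import Mathlib
import Pool.Agent.H927R2.RD.Final2

/-!
# Dynamical Mordell-Lang for rational points of the plane: exponentially few exceptional maps

Definitions (all in `Pool.Agent.H927R2.RD`):
* `Box n d H`: the `n`-tuples of forms of degree `d` in `n` variables over `ℤ` with coefficients of
  absolute value at most `H`;
* `DMLAt F α`: for every set `S` of homogeneous complex polynomials the set of `k` such that all
  `g ∈ S` vanish at the `k`-th iterate of `α` is a finite union of arithmetic progressions;
* `DMLOver L F`: `DMLAt F α` for all `α ≠ 0` with coordinates in the subfield `L` of `ℂ`.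
-/

set_option autoImplicit false

open MvPolynomial Pool.Agent.H927R2.RD

namespace Pool.Agent.Results.MP_b15c9e_ag.PlaneRationalPoints

/-- **Exponentially few exceptional endomorphisms of the plane.**
There are `c > 0` and `C` such that for every degree `d ≥ 2` and `H ≥ H₀(d)` the proportion, among
the systems of three ternary integral forms of degree `d` with coefficients at most `H`, of those
failing DML at some rational point for some closed `V ⊆ P^2` is at most `C exp(-c d / log d)`. -/
theorem result :
    ∃ c > (0 : ℝ), ∃ C : ℝ, ∀ d : ℕ, 2 ≤ d → ∃ H₀ : ℕ, ∀ H : ℕ, H₀ ≤ H →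
      (({F | F ∈ Box 3 d H ∧ ¬ DMLOver (N := 2) (algebraMap ℚ ℂ).fieldRange F} :
        Set (Fin 3 → MvPolynomial (Fin 3) ℤ)).ncard : ℝ) ≤
          C * Real.exp (-(c * d / Real.log d)) * ((Box 3 d H).ncard : ℝ) :=
  plane_rational

end Pool.Agent.Results.MP_b15c9e_ag.PlaneRationalPoints
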